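import Pool.Agent.H735TW.Stubs

/-!
# A finitary quasicentral lemma

For finitely many `b_k` and finitely many `j_i` which are very small in the uniform 2-norm there is
`0 ≤ e ≤ 1`, small in every tracial state, almost commuting in norm with the `b_k`, and almost a
unit (in norm) for the `j_i`.
-/

set_option autoImplicit false

namespace Pool.Agent.H703R4.QC

open Pool.Agent.H735TW Pool.Agent.H327R4.Pure

universe u

section one

variable {A : Type u} [CStarAlgebra A] [PartialOrder A] [StarOrderedRing A]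

/-- `min (1, t/d)` -/
noncomputable def gg (d t : ℝ) : ℝ := min 1 (t / d)

lemma gg_cont (d : ℝ) : Continuous (gg d) := by unfold gg; fun_prop

/-- `min (1, h/d)` -/
noncomputable def ee (d : ℝ) (h : A) : A := cfc (gg d) h

lemma ee_nonneg {d : ℝ} (hd : 0 < d) {h : A} (hh : 0 ≤ h) : 0 ≤ ee d h := by
  unfold ee
  apply cfc_nonneg
  intro t ht
  have h0 : 0 ≤ t := spectrum_nonneg_of_nonneg hh ht
  unfold gg
  exact le_min zero_le_one (div_nonneg h0 hd.le)

lemma ee_le_one {d : ℝ} {h : A} (hh : 0 ≤ h) : ee d h ≤ 1 := by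
  unfold ee
  have _hsa : IsSelfAdjoint h := IsSelfAdjoint.of_nonneg hh
  apply cfc_le_one
  intro t _
  exact min_le_left _ _

lemma ee_le {d : ℝ} (hd : 0 < d) {h : A} (hh : 0 ≤ h) : ee d h ≤ ((d⁻¹ : ℝ)) • h := by
  unfold ee
  have hsa : IsSelfAdjoint h := IsSelfAdjoint.of_nonneg hh
  have e1 : (d⁻¹ : ℝ) • h = cfc (fun t : ℝ => d⁻¹ • t) h := by
    rw [cfc_smul_id (R := ℝ) d⁻¹ h]
  rw [e1]
  have c2 : ContinuousOn (fun t : ℝ => d⁻¹ • t) (spectrum ℝ h) := by
    simp only [smul_eq_mul]; fun_prop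
  refine cfc_mono (fun t _ => ?_) (gg_cont d).continuousOn c2
  unfold gg
  have : t / d = d⁻¹ * t := by ring
  rw [this]
  exact min_le_right _ _

omit [PartialOrder A] [StarOrderedRing A] in
lemma ee_sa {d : ℝ} {h : A} : IsSelfAdjoint (ee d h) := cfc_predicate _ _

lemma norm_cut_le {d : ℝ} (hd : 0 < d) {h : A} (hh : 0 ≤ h) :
    ‖(1 - ee d h) * h * (1 - ee d h)‖ ≤ d := by
  have hsa : IsSelfAdjoint h := IsSelfAdjoint.of_nonneg hh
  have e0 : (1 : A) - ee d h = cfc (fun t : ℝ => 1 - gg d t) h := by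
    unfold ee
    rw [cfc_sub (R := ℝ) (fun _ => 1) (gg d) h (by fun_prop) (gg_cont d).continuousOn]
    rw [cfc_const_one ℝ h]
  have e1 : (1 - ee d h) * h * (1 - ee d h) =
      cfc (fun t : ℝ => (1 - gg d t) * t * (1 - gg d t)) h := by
    have c1 : ContinuousOn (fun t : ℝ => 1 - gg d t) (spectrum ℝ h) :=
      (continuous_const.sub (gg_cont d)).continuousOn
    rw [e0]
    rw [cfc_mul (R := ℝ) (fun t : ℝ => (1 - gg d t) * t) (fun t => 1 - gg d t) h
      (c1.mul continuousOn_id) c1]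
    rw [cfc_mul (R := ℝ) (fun t : ℝ => 1 - gg d t) (fun t => t) h c1 continuousOn_id]
    rw [cfc_id' ℝ h]
  rw [e1]
  apply norm_cfc_le hd.le
  intro t ht
  have h0 : 0 ≤ t := spectrum_nonneg_of_nonneg hh ht
  unfold gg
  rcases le_or_gt d t with h1 | h1
  · have : 1 ≤ t / d := by rw [le_div_iff₀ hd]; linarith
    rw [min_eq_left this]
    simp [hd.le]
  · have h2 : t / d < 1 := by rw [div_lt_one hd]; exact h1
    have h3 : 0 ≤ t / d := div_nonneg h0 hd.le
    rw [min_eq_right h2.le]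
    rw [Real.norm_of_nonneg (by
      apply mul_nonneg (mul_nonneg (by linarith) h0) (by linarith))]
    have h4 : (1 - t / d) * t * (1 - t / d) ≤ 1 * t * 1 := by
      apply mul_le_mul
      · apply mul_le_mul_of_nonneg_right (by linarith) h0
      · linarith
      · linarith
      · simpa using h0
    linarith

lemma norm_unit_le {d : ℝ} (hd : 0 < d) {h y : A} (hh : 0 ≤ h) (hy : y * star y ≤ h) :
    ‖(1 - ee d h) * y‖ ≤ Real.sqrt d := by
  apply Real.le_sqrt_of_sq_le
  have hs : star (1 - ee d h) = 1 - ee d h := by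
    rw [star_sub, star_one, (ee_sa (d := d) (h := h)).star_eq]
  have e1 : ‖(1 - ee d h) * y‖ ^ 2 = ‖(1 - ee d h) * (y * star y) * (1 - ee d h)‖ := by
    rw [sq, ← CStarRing.norm_self_mul_star, star_mul, hs]
    congr 1
    noncomm_ring
  rw [e1]
  have h1 : (1 - ee d h) * (y * star y) * (1 - ee d h) ≤ (1 - ee d h) * h * (1 - ee d h) := by
    have := star_right_conjugate_le_conjugate hy (1 - ee d h)
    rwa [hs] at this
  have h0 : 0 ≤ (1 - ee d h) * (y * star y) * (1 - ee d h) := by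
    have := star_right_conjugate_nonneg (mul_star_self_nonneg y) (1 - ee d h)
    rwa [hs] at this
  exact (CStarAlgebra.norm_le_norm_of_nonneg_of_le h0 h1).trans (norm_cut_le hd hh)

lemma sq_le_self {e : A} (h0 : 0 ≤ e) (h1 : e ≤ 1) : e * e ≤ e := by
  have hc : Commute e (1 - e) := (Commute.one_right e).sub_right (Commute.refl e)
  have := hc.mul_nonneg h0 (sub_nonneg.2 h1)
  rw [mul_sub, mul_one] at this
  exact sub_nonneg.1 this

/-- the sequence `h_k` -/
noncomputable def hq {r : ℕ} (d : ℝ) (J : A) (b : Fin r → A) : ℕ → A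
  | 0 => J
  | (k + 1) => J + ee d (hq d J b k) +
      ∑ i, (b i * ee d (hq d J b k) * star (b i) + star (b i) * ee d (hq d J b k) * b i)

section seq

variable {r : ℕ} {d : ℝ} {J : A} {b : Fin r → A}

lemma hq_nonneg (hd : 0 < d) (hJ : 0 ≤ J) (k : ℕ) : 0 ≤ hq d J b k := by
  induction k with
  | zero => exact hJ
  | succ k ih =>
    have he := ee_nonneg hd ih
    unfold hq
    refine add_nonneg (add_nonneg hJ he) (Finset.sum_nonneg fun i _ => add_nonneg ?_ ?_)
    · exact star_right_conjugate_nonneg he (b i)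
    · exact star_left_conjugate_nonneg he (b i)

lemma J_le (hd : 0 < d) (hJ : 0 ≤ J) (k : ℕ) : J ≤ hq d J b k := by
  cases k with
  | zero => exact le_refl _
  | succ k =>
    have he := ee_nonneg hd (hq_nonneg hd hJ (b := b) k)
    unfold hq
    have h2 : 0 ≤ ∑ i, (b i * ee d (hq d J b k) * star (b i) +
        star (b i) * ee d (hq d J b k) * b i) :=
      Finset.sum_nonneg fun i _ => add_nonneg (star_right_conjugate_nonneg he (b i))
        (star_left_conjugate_nonneg he (b i))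
    calc J = J + 0 + 0 := by simp
      _ ≤ _ := add_le_add (add_le_add le_rfl he) h2

lemma E_le (hd : 0 < d) (hJ : 0 ≤ J) (k : ℕ) : ee d (hq d J b k) ≤ hq d J b (k + 1) := by
  have he := ee_nonneg hd (hq_nonneg hd hJ (b := b) k)
  have h2 : 0 ≤ ∑ i, (b i * ee d (hq d J b k) * star (b i) +
      star (b i) * ee d (hq d J b k) * b i) :=
    Finset.sum_nonneg fun i _ => add_nonneg (star_right_conjugate_nonneg he (b i))
      (star_left_conjugate_nonneg he (b i))
  calc ee d (hq d J b k) = 0 + ee d (hq d J b k) + 0 := by simp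
    _ ≤ hq d J b (k + 1) := by
      rw [hq]
      exact add_le_add (add_le_add hJ le_rfl) h2

lemma term_le (hd : 0 < d) (hJ : 0 ≤ J) (k : ℕ) (i : Fin r) :
    b i * ee d (hq d J b k) * star (b i) + star (b i) * ee d (hq d J b k) * b i
      ≤ hq d J b (k + 1) := by
  have he := ee_nonneg hd (hq_nonneg hd hJ (b := b) k)
  have h2 : b i * ee d (hq d J b k) * star (b i) + star (b i) * ee d (hq d J b k) * b i ≤
      ∑ i, (b i * ee d (hq d J b k) * star (b i) + star (b i) * ee d (hq d J b k) * b i) :=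
    Finset.single_le_sum (f := fun i => b i * ee d (hq d J b k) * star (b i) +
      star (b i) * ee d (hq d J b k) * b i) (fun i _ => add_nonneg
      (star_right_conjugate_nonneg he (b i)) (star_left_conjugate_nonneg he (b i)))
      (Finset.mem_univ i)
  calc _ = 0 + 0 + (b i * ee d (hq d J b k) * star (b i) +
        star (b i) * ee d (hq d J b k) * b i) := by simp
    _ ≤ hq d J b (k + 1) := by
      rw [hq]
      exact add_le_add (add_le_add hJ he) h2

lemma term1_le (hd : 0 < d) (hJ : 0 ≤ J) (k : ℕ) (i : Fin r) :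
    b i * ee d (hq d J b k) * star (b i) ≤ hq d J b (k + 1) := by
  have he := ee_nonneg hd (hq_nonneg hd hJ (b := b) k)
  refine le_trans ?_ (term_le hd hJ k i)
  exact le_add_of_nonneg_right (star_left_conjugate_nonneg he (b i))

lemma term2_le (hd : 0 < d) (hJ : 0 ≤ J) (k : ℕ) (i : Fin r) :
    star (b i) * ee d (hq d J b k) * b i ≤ hq d J b (k + 1) := by
  have he := ee_nonneg hd (hq_nonneg hd hJ (b := b) k)
  refine le_trans ?_ (term_le hd hJ k i)
  exact le_add_of_nonneg_left (star_right_conjugate_nonneg he (b i))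

lemma uE (hd : 0 < d) (hJ : 0 ≤ J) (k : ℕ) :
    ‖(1 - ee d (hq d J b (k + 1))) * ee d (hq d J b k)‖ ≤ Real.sqrt d := by
  have h0 := hq_nonneg hd hJ (b := b) k
  apply norm_unit_le hd (hq_nonneg hd hJ (b := b) (k + 1))
  rw [(ee_sa (d := d) (h := hq d J b k)).star_eq]
  exact (sq_le_self (ee_nonneg hd h0) (ee_le_one h0)).trans (E_le hd hJ k)

lemma ubE (hd : 0 < d) (hJ : 0 ≤ J) (k : ℕ) (i : Fin r) :
    ‖(1 - ee d (hq d J b (k + 1))) * (b i * ee d (hq d J b k))‖ ≤ Real.sqrt d := by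
  have h0 := hq_nonneg hd hJ (b := b) k
  apply norm_unit_le hd (hq_nonneg hd hJ (b := b) (k + 1))
  have e1 : b i * ee d (hq d J b k) * star (b i * ee d (hq d J b k)) =
      b i * (ee d (hq d J b k) * ee d (hq d J b k)) * star (b i) := by
    rw [star_mul, (ee_sa (d := d) (h := hq d J b k)).star_eq]
    noncomm_ring
  rw [e1]
  refine le_trans ?_ (term1_le hd hJ k i)
  exact star_right_conjugate_le_conjugate (sq_le_self (ee_nonneg hd h0) (ee_le_one h0)) (b i)

lemma ubsE (hd : 0 < d) (hJ : 0 ≤ J) (k : ℕ) (i : Fin r) :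
    ‖(1 - ee d (hq d J b (k + 1))) * (star (b i) * ee d (hq d J b k))‖ ≤ Real.sqrt d := by
  have h0 := hq_nonneg hd hJ (b := b) k
  apply norm_unit_le hd (hq_nonneg hd hJ (b := b) (k + 1))
  have e1 : star (b i) * ee d (hq d J b k) * star (star (b i) * ee d (hq d J b k)) =
      star (b i) * (ee d (hq d J b k) * ee d (hq d J b k)) * b i := by
    rw [star_mul, star_star, (ee_sa (d := d) (h := hq d J b k)).star_eq]
    noncomm_ring
  rw [e1]
  refine le_trans ?_ (term2_le hd hJ k i)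
  exact star_left_conjugate_le_conjugate (sq_le_self (ee_nonneg hd h0) (ee_le_one h0)) (b i)

end seq

end one

section chain

variable {A : Type u} [CStarAlgebra A]

/-- chain estimates -/
lemma chain1 {E : ℕ → A} {s : ℝ} (hsa : ∀ k, star (E k) = E k)
    (hE : ∀ k, ‖E k‖ ≤ 1) (hu : ∀ k, ‖1 - E k‖ ≤ 1)
    (h1 : ∀ k, ‖(1 - E (k + 1)) * E k‖ ≤ s) :
    ∀ p k, ‖E k * (1 - E (k + 1 + p))‖ ≤ (p + 1) * s := by
  have h1' : ∀ k, ‖E k * (1 - E (k + 1))‖ ≤ s := by
    intro k
    rw [← norm_star, star_mul, star_sub, star_one, hsa, hsa]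
    exact h1 k
  intro p
  induction p with
  | zero => intro k; simpa using h1' k
  | succ p ih =>
    intro k
    have e1 : E k * (1 - E (k + 1 + (p + 1))) =
        E k * (E (k + 1) * (1 - E (k + 1 + 1 + p))) +
          (E k * (1 - E (k + 1))) * (1 - E (k + 1 + (p + 1))) := by
      have : k + 1 + 1 + p = k + 1 + (p + 1) := by ring
      rw [this]; noncomm_ring
    rw [e1]
    have a1 : ‖E k * (E (k + 1) * (1 - E (k + 1 + 1 + p)))‖ ≤ 1 * ((p + 1) * s) :=
      (norm_mul_le _ _).trans (mul_le_mul (hE k) (ih (k + 1)) (norm_nonneg _) zero_le_one)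
    have a2 : ‖(E k * (1 - E (k + 1))) * (1 - E (k + 1 + (p + 1)))‖ ≤ s * 1 :=
      (norm_mul_le _ _).trans (mul_le_mul (h1' k) (hu _) (norm_nonneg _)
        ((norm_nonneg _).trans (h1' k)))
    refine (norm_add_le _ _).trans ((add_le_add a1 a2).trans (le_of_eq ?_))
    push_cast; ring

lemma chain2 {E : ℕ → A} {b : A} {s B : ℝ} (hsa : ∀ k, star (E k) = E k)
    (hE : ∀ k, ‖E k‖ ≤ 1) (hu : ∀ k, ‖1 - E k‖ ≤ 1)
    (h1 : ∀ k, ‖(1 - E (k + 1)) * E k‖ ≤ s) (hb : ‖b‖ ≤ B)
    (h2 : ∀ k, ‖(1 - E (k + 1)) * (star b * E k)‖ ≤ s) (p k : ℕ) :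
    ‖E k * b * (1 - E (k + 1 + p))‖ ≤ s * (1 + p * B) := by
  have h2' : ∀ k, ‖E k * b * (1 - E (k + 1))‖ ≤ s := by
    intro k
    rw [← norm_star, star_mul, star_mul, star_sub, star_one, hsa, hsa]
    exact h2 k
  have hs : 0 ≤ s := (norm_nonneg _).trans (h1 0)
  have hB : 0 ≤ B := (norm_nonneg _).trans hb
  cases p with
  | zero => simpa using h2' k
  | succ p =>
    have e1 : E k * b * (1 - E (k + 1 + (p + 1))) =
        E k * b * (E (k + 1) * (1 - E (k + 1 + 1 + p))) +
          (E k * b * (1 - E (k + 1))) * (1 - E (k + 1 + (p + 1))) := by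
      have : k + 1 + 1 + p = k + 1 + (p + 1) := by ring
      rw [this]; noncomm_ring
    rw [e1]
    have a0 : ‖E k * b‖ ≤ B := by
      calc ‖E k * b‖ ≤ ‖E k‖ * ‖b‖ := norm_mul_le _ _
        _ ≤ 1 * B := mul_le_mul (hE k) hb (norm_nonneg _) zero_le_one
        _ = B := one_mul _
    have a1 : ‖E k * b * (E (k + 1) * (1 - E (k + 1 + 1 + p)))‖ ≤ B * ((p + 1) * s) :=
      (norm_mul_le _ _).trans (mul_le_mul a0 (chain1 hsa hE hu h1 p (k + 1)) (norm_nonneg _) hB)
    have a2 : ‖(E k * b * (1 - E (k + 1))) * (1 - E (k + 1 + (p + 1)))‖ ≤ s * 1 :=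
      (norm_mul_le _ _).trans (mul_le_mul (h2' k) (hu _) (norm_nonneg _) hs)
    refine (norm_add_le _ _).trans ((add_le_add a1 a2).trans (le_of_eq ?_))
    push_cast; ring

lemma chain3 {E : ℕ → A} {b : A} {s B : ℝ} (hsa : ∀ k, star (E k) = E k)
    (hE : ∀ k, ‖E k‖ ≤ 1) (hu : ∀ k, ‖1 - E k‖ ≤ 1)
    (h1 : ∀ k, ‖(1 - E (k + 1)) * E k‖ ≤ s) (hb : ‖b‖ ≤ B)
    (h2 : ∀ k, ‖(1 - E (k + 1)) * (star b * E k)‖ ≤ s)
    (h3 : ∀ k, ‖(1 - E (k + 1)) * (b * E k)‖ ≤ s) (p k : ℕ) :
    ‖star (E k * b - b * E k) * (E (k + 2 + p) * b - b * E (k + 2 + p))‖ ≤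
      4 * s * ((p + 2 : ℕ) : ℝ) * (B ^ 2 + B) := by
  have hs : 0 ≤ s := (norm_nonneg _).trans (h1 0)
  have hB : 0 ≤ B := (norm_nonneg _).trans hb
  have hbs : ‖star b‖ ≤ B := by rwa [norm_star]
  have h3' : ∀ k, ‖(1 - E (k + 1)) * (star (star b) * E k)‖ ≤ s := by
    intro k; rw [star_star]; exact h3 k
  have h3'' : ‖E k * star b * (1 - E (k + 1))‖ ≤ s := by
    rw [← norm_star, star_mul, star_mul, star_sub, star_one, hsa, hsa, star_star]
    exact h3 k
  have hl : k + 2 + p = k + 1 + (p + 1) := by ring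
  set l := k + 2 + p with hldef
  have hl' : l = k + 1 + 1 + p := by omega
  have q1 : ‖E k * (1 - E l)‖ ≤ (p + 2) * s := by
    have := chain1 hsa hE hu h1 (p + 1) k
    rw [← hl] at this
    refine this.trans (le_of_eq ?_); push_cast; ring
  have q2 : ‖E k * b * (1 - E l)‖ ≤ s * (1 + (p + 1) * B) := by
    have := chain2 hsa hE hu h1 hb h2 (p + 1) k
    rw [← hl] at this
    refine this.trans (le_of_eq ?_); push_cast; ring
  have q3 : ‖E k * star b * (1 - E l)‖ ≤ s * (1 + (p + 1) * B) := by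
    have := chain2 hsa hE hu h1 hbs h3' (p + 1) k
    rw [← hl] at this
    refine this.trans (le_of_eq ?_); push_cast; ring
  have q4 : ‖E k * star b * b * (1 - E l)‖ ≤ B * (s * (1 + p * B)) + s * B := by
    have e1 : E k * star b * b * (1 - E l) =
        E k * star b * (E (k + 1) * b * (1 - E l)) +
          (E k * star b * (1 - E (k + 1))) * (b * (1 - E l)) := by noncomm_ring
    rw [e1]
    have a0 : ‖E k * star b‖ ≤ B := by
      calc ‖E k * star b‖ ≤ ‖E k‖ * ‖star b‖ := norm_mul_le _ _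
        _ ≤ 1 * B := mul_le_mul (hE k) hbs (norm_nonneg _) zero_le_one
        _ = B := one_mul _
    have a1 : ‖E k * star b * (E (k + 1) * b * (1 - E l))‖ ≤ B * (s * (1 + p * B)) := by
      have := chain2 hsa hE hu h1 hb h2 p (k + 1)
      rw [← hl'] at this
      exact (norm_mul_le _ _).trans (mul_le_mul a0 this (norm_nonneg _) hB)
    have a2 : ‖b * (1 - E l)‖ ≤ B := by
      calc ‖b * (1 - E l)‖ ≤ ‖b‖ * ‖1 - E l‖ := norm_mul_le _ _
        _ ≤ B * 1 := mul_le_mul hb (hu _) (norm_nonneg _) hB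
        _ = B := mul_one _
    have a3 : ‖(E k * star b * (1 - E (k + 1))) * (b * (1 - E l))‖ ≤ s * B :=
      (norm_mul_le _ _).trans (mul_le_mul h3'' a2 (norm_nonneg _) hs)
    exact (norm_add_le _ _).trans (add_le_add a1 a3)
  have e0 : star (E k * b - b * E k) * (E l * b - b * E l) =
      -(star b * (E k * (1 - E l)) * b) + star b * (E k * b * (1 - E l)) +
        (E k * star b * (1 - E l)) * b - E k * star b * b * (1 - E l) := by
    rw [star_sub, star_mul, star_mul, hsa]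
    noncomm_ring
  rw [e0]
  have b1 : ‖-(star b * (E k * (1 - E l)) * b)‖ ≤ B * ((p + 2) * s) * B := by
    rw [norm_neg]
    refine (norm_mul_le _ _).trans (mul_le_mul ?_ hb (norm_nonneg _) (by positivity))
    exact (norm_mul_le _ _).trans (mul_le_mul hbs q1 (norm_nonneg _) hB)
  have b2 : ‖star b * (E k * b * (1 - E l))‖ ≤ B * (s * (1 + (p + 1) * B)) :=
    (norm_mul_le _ _).trans (mul_le_mul hbs q2 (norm_nonneg _) hB)
  have b3 : ‖(E k * star b * (1 - E l)) * b‖ ≤ (s * (1 + (p + 1) * B)) * B :=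
    (norm_mul_le _ _).trans (mul_le_mul q3 hb (norm_nonneg _) (by positivity))
  have tot : ‖-(star b * (E k * (1 - E l)) * b) + star b * (E k * b * (1 - E l)) +
        (E k * star b * (1 - E l)) * b - E k * star b * b * (1 - E l)‖ ≤
      B * ((p + 2) * s) * B + B * (s * (1 + (p + 1) * B)) + (s * (1 + (p + 1) * B)) * B +
        (B * (s * (1 + p * B)) + s * B) :=
    (norm_sub_le _ _).trans (add_le_add ((norm_add_le _ _).trans
      (add_le_add ((norm_add_le _ _).trans (add_le_add b1 b2)) b3)) q4)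
  refine tot.trans ?_
  have hp : (0 : ℝ) ≤ p := Nat.cast_nonneg p
  push_cast
  nlinarith [mul_nonneg hs hB, mul_nonneg (mul_nonneg hs hB) hB,
    mul_nonneg (mul_nonneg hs hB) hp, mul_nonneg (mul_nonneg (mul_nonneg hs hB) hB) hp]

/-- the commutators are almost orthogonal -/
lemma comm_sum {E : ℕ → A} {b : A} {s B : ℝ} (hsa : ∀ k, star (E k) = E k)
    (hE : ∀ k, ‖E k‖ ≤ 1) (hu : ∀ k, ‖1 - E k‖ ≤ 1)
    (h1 : ∀ k, ‖(1 - E (k + 1)) * E k‖ ≤ s) (hb : ‖b‖ ≤ B)
    (h2 : ∀ k, ‖(1 - E (k + 1)) * (star b * E k)‖ ≤ s)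
    (h3 : ∀ k, ‖(1 - E (k + 1)) * (b * E k)‖ ≤ s) (n : ℕ) :
    ‖∑ k ∈ Finset.range n, (E k * b - b * E k)‖ ^ 2 ≤
      (n : ℝ) ^ 2 * (4 * s * n * (B ^ 2 + B)) + 12 * n * B ^ 2 := by
  have hs : 0 ≤ s := (norm_nonneg _).trans (h1 0)
  have hB : 0 ≤ B := (norm_nonneg _).trans hb
  set c : ℕ → A := fun k => E k * b - b * E k with hc
  set κ : ℝ := 4 * s * n * (B ^ 2 + B) with hκ
  have hκ0 : 0 ≤ κ := by positivity
  have hcn : ∀ k, ‖c k‖ ≤ 2 * B := by
    intro k
    have a1 : ‖E k * b‖ ≤ 1 * B :=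
      (norm_mul_le _ _).trans (mul_le_mul (hE k) hb (norm_nonneg _) zero_le_one)
    have a2 : ‖b * E k‖ ≤ B * 1 :=
      (norm_mul_le _ _).trans (mul_le_mul hb (hE k) (norm_nonneg _) hB)
    have := norm_sub_le (E k * b) (b * E k)
    simp only [hc]; linarith
  have far : ∀ k l, k < n → l < n → k + 2 ≤ l → ‖star (c k) * c l‖ ≤ κ := by
    intro k l hk hl hkl
    obtain ⟨p, rfl⟩ := Nat.exists_eq_add_of_le hkl
    refine (chain3 hsa hE hu h1 hb h2 h3 p k).trans ?_
    have : ((p + 2 : ℕ) : ℝ) ≤ n := by exact_mod_cast (by omega : p + 2 ≤ n)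
    have h5 : 0 ≤ B ^ 2 + B := by positivity
    rw [hκ]
    apply mul_le_mul_of_nonneg_right _ h5
    apply mul_le_mul_of_nonneg_left this (by positivity)
  have pair : ∀ k l, k < n → l < n → ‖star (c k) * c l‖ ≤ κ +
      ((if l = k then 4 * B ^ 2 else 0) + (if l = k + 1 then 4 * B ^ 2 else 0) +
        (if k = l + 1 then 4 * B ^ 2 else 0)) := by
    intro k l hk hl
    have hnear : ‖star (c k) * c l‖ ≤ 4 * B ^ 2 := by
      calc ‖star (c k) * c l‖ ≤ ‖star (c k)‖ * ‖c l‖ := norm_mul_le _ _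
        _ ≤ (2 * B) * (2 * B) := by
          rw [norm_star]
          exact mul_le_mul (hcn k) (hcn l) (norm_nonneg _) (by positivity)
        _ = 4 * B ^ 2 := by ring
    have hB2 : (0 : ℝ) ≤ 4 * B ^ 2 := by positivity
    have p1 : (0 : ℝ) ≤ (if l = k then 4 * B ^ 2 else 0) := by split_ifs <;> simp [hB2]
    have p2 : (0 : ℝ) ≤ (if l = k + 1 then 4 * B ^ 2 else 0) := by split_ifs <;> simp [hB2]
    have p3 : (0 : ℝ) ≤ (if k = l + 1 then 4 * B ^ 2 else 0) := by split_ifs <;> simp [hB2]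
    by_cases c1 : l = k
    · rw [if_pos c1] at *; linarith
    by_cases c2 : l = k + 1
    · rw [if_pos c2] at *; linarith
    by_cases c3 : k = l + 1
    · rw [if_pos c3] at *; linarith
    rcases lt_or_gt_of_ne c1 with c4 | c4
    · have : ‖star (c k) * c l‖ = ‖star (c l) * c k‖ := by
        rw [← norm_star, star_mul, star_star]
      rw [this]
      have := far l k hl hk (by omega)
      linarith
    · have := far k l hk hl (by omega)
      linarith
  have e1 : ‖∑ k ∈ Finset.range n, c k‖ ^ 2 ≤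
      ∑ k ∈ Finset.range n, ∑ l ∈ Finset.range n, ‖star (c k) * c l‖ := by
    rw [sq, ← CStarRing.norm_star_mul_self, star_sum, Finset.sum_mul_sum]
    refine (norm_sum_le _ _).trans (Finset.sum_le_sum fun k _ => norm_sum_le _ _)
  refine e1.trans ?_
  have e2 : ∑ k ∈ Finset.range n, ∑ l ∈ Finset.range n, ‖star (c k) * c l‖ ≤
      ∑ k ∈ Finset.range n, (n * κ + 12 * B ^ 2) := by
    refine Finset.sum_le_sum fun k hk => ?_
    refine (Finset.sum_le_sum fun l hl => pair k l (Finset.mem_range.1 hk)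
      (Finset.mem_range.1 hl)).trans ?_
    rw [Finset.sum_add_distrib, Finset.sum_add_distrib, Finset.sum_add_distrib]
    have hB2 : (0 : ℝ) ≤ 4 * B ^ 2 := by positivity
    have s1 : ∑ l ∈ Finset.range n, (if l = k then 4 * B ^ 2 else 0) ≤ 4 * B ^ 2 := by
      rw [Finset.sum_ite_eq' (Finset.range n) k (fun _ => 4 * B ^ 2)]
      split_ifs <;> simp [hB2]
    have s2 : ∑ l ∈ Finset.range n, (if l = k + 1 then 4 * B ^ 2 else 0) ≤ 4 * B ^ 2 := by
      rw [Finset.sum_ite_eq' (Finset.range n) (k + 1) (fun _ => 4 * B ^ 2)]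
      split_ifs <;> simp [hB2]
    have s3 : ∑ l ∈ Finset.range n, (if k = l + 1 then 4 * B ^ 2 else 0) ≤ 4 * B ^ 2 := by
      have : ∀ l ∈ Finset.range n, (if k = l + 1 then 4 * B ^ 2 else 0) ≤
          (if l = k - 1 then 4 * B ^ 2 else 0) := by
        intro l _
        by_cases hh : k = l + 1
        · rw [if_pos hh, if_pos (by omega)]
        · rw [if_neg hh]; split_ifs <;> simp [hB2]
      refine (Finset.sum_le_sum this).trans ?_
      rw [Finset.sum_ite_eq' (Finset.range n) (k - 1) (fun _ => 4 * B ^ 2)]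
      split_ifs <;> simp [hB2]
    have s0 : ∑ l ∈ Finset.range n, κ = n * κ := by simp
    rw [s0]
    linarith
  refine e2.trans (le_of_eq ?_)
  rw [Finset.sum_const, Finset.card_range, nsmul_eq_mul, hκ]
  ring

end chain

section final

variable {A : Type u} [CStarAlgebra A] [PartialOrder A] [StarOrderedRing A]

/-- traces of the sequence -/
lemma trace_hq (hTB : StTB.{u}) (T : Tr A) (hT : St T) {r : ℕ} {d B : ℝ} {J : A} {b : Fin r → A}
    (hd : 0 < d) (hJ : 0 ≤ J) (hB : ∀ i, ‖b i‖ ≤ B) (k : ℕ) :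
    re T (hq d J b k) ≤ re T J * (1 + (1 + 2 * r * B ^ 2) / d) ^ k := by
  obtain ⟨_, _, _, _, _, _, _, _, _, _, _, hmono, hpos, _, _, _⟩ := hTB A T hT
  have hadd : ∀ x y : A, re T (x + y) = re T x + re T y := by
    intro x y; simp [re, map_add]
  have hsum : ∀ {m : ℕ} (f : Fin m → A), re T (∑ i, f i) = ∑ i, re T (f i) := by
    intro m f; simp [re, map_sum]
  have hcy : ∀ x y : A, re T (x * y) = re T (y * x) := by
    intro x y; simp [re, T.tr x y]
  have hsm : ∀ (c : ℝ) (x : A), re T (c • x) = c * re T x := by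
    intro c x
    have : c • x = (c : ℂ) • x := by simp
    rw [this]
    simp [re]
  have hprod : ∀ a y : A, 0 ≤ a → re T (a * y) ≤ re T a * ‖y‖ := by
    intro a y ha
    exact (Complex.re_le_norm _).trans ((hpos a ha).2.2 y)
  have hJ0 : 0 ≤ re T J := (hpos J hJ).1
  induction k with
  | zero => simp [hq]
  | succ k ih =>
    have h0 := hq_nonneg hd hJ (b := b) k
    have he := ee_nonneg hd h0
    set e := ee d (hq d J b k) with hedef
    have he0 : 0 ≤ re T e := (hpos e he).1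
    have t1 : re T e ≤ d⁻¹ * re T (hq d J b k) := by
      rw [← hsm]; exact hmono _ _ (ee_le hd h0)
    have t2 : ∀ i, re T (b i * e * star (b i) + star (b i) * e * b i) ≤ re T e * (2 * B ^ 2) := by
      intro i
      have hBi : 0 ≤ B := (norm_nonneg _).trans (hB i)
      have n1 : ‖star (b i) * b i‖ ≤ B ^ 2 := by
        rw [CStarRing.norm_star_mul_self, ← sq]
        exact pow_le_pow_left₀ (norm_nonneg _) (hB i) 2
      have n2' : ‖b i * star (b i)‖ ≤ B ^ 2 := by
        rw [CStarRing.norm_self_mul_star, ← sq]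
        exact pow_le_pow_left₀ (norm_nonneg _) (hB i) 2
      have c1 : re T (b i * e * star (b i)) = re T (e * (star (b i) * b i)) := by
        rw [mul_assoc, hcy, mul_assoc]
      have c2 : re T (star (b i) * e * b i) = re T (e * (b i * star (b i))) := by
        rw [mul_assoc, hcy, mul_assoc]
      rw [hadd, c1, c2]
      have d1 := (hprod e (star (b i) * b i) he).trans (mul_le_mul_of_nonneg_left n1 he0)
      have d2 := (hprod e (b i * star (b i)) he).trans (mul_le_mul_of_nonneg_left n2' he0)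
      linarith
    have t3 : re T (∑ i, (b i * e * star (b i) + star (b i) * e * b i)) ≤
        re T e * (2 * r * B ^ 2) := by
      rw [hsum]
      refine (Finset.sum_le_sum fun i _ => t2 i).trans (le_of_eq ?_)
      rw [Finset.sum_const, Finset.card_univ, Fintype.card_fin, nsmul_eq_mul]
      ring
    have t4 : re T (hq d J b (k + 1)) ≤ re T J + re T e * (1 + 2 * r * B ^ 2) := by
      have : hq d J b (k + 1) = J + e + ∑ i, (b i * e * star (b i) + star (b i) * e * b i) := rfl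
      rw [this, hadd, hadd]
      linarith
    set C : ℝ := 1 + 2 * r * B ^ 2 with hC
    have hC0 : 0 ≤ C := by positivity
    have hCd : 0 ≤ C / d := div_nonneg hC0 hd.le
    have t5 : re T e * C ≤ (C / d) * (re T J * (1 + C / d) ^ k) := by
      calc re T e * C ≤ (d⁻¹ * re T (hq d J b k)) * C := mul_le_mul_of_nonneg_right t1 hC0
        _ = (C / d) * re T (hq d J b k) := by ring
        _ ≤ (C / d) * (re T J * (1 + C / d) ^ k) := mul_le_mul_of_nonneg_left ih hCd
    have t6 : re T J ≤ re T J * (1 + C / d) ^ k :=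
      le_mul_of_one_le_right hJ0 (one_le_pow₀ (by linarith))
    calc re T (hq d J b (k + 1)) ≤ re T J + re T e * C := t4
      _ ≤ re T J * (1 + C / d) ^ k + (C / d) * (re T J * (1 + C / d) ^ k) := add_le_add t6 t5
      _ = re T J * (1 + C / d) ^ (k + 1) := by ring

/-- THE FINITARY QUASICENTRAL LEMMA -/
theorem qcu (hTB : StTB.{u}) (r m : ℕ) (B ε : ℝ) (hε : 0 < ε) : ∃ ε0 : ℝ, 0 < ε0 ∧
    ∀ (A : Type u) [CStarAlgebra A] [PartialOrder A] [StarOrderedRing A]
      (b : Fin r → A) (j : Fin m → A), (∀ k, ‖b k‖ ≤ B) →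
      (∀ T : Tr A, St T → ∀ i, n2 T (j i) ≤ ε0) →
      ∃ e : A, 0 ≤ e ∧ e ≤ 1 ∧ (∀ T : Tr A, St T → re T e ≤ ε) ∧
        (∀ i, ‖(1 - e) * j i‖ ≤ ε ∧ ‖j i * (1 - e)‖ ≤ ε) ∧
        ∀ k, ‖e * b k - b k * e‖ ≤ ε := by
  -- parameters
  set B' : ℝ := max B 0 with hB'
  have hB'0 : 0 ≤ B' := le_max_right _ _
  obtain ⟨n0, hn0⟩ := exists_nat_gt (24 * B' ^ 2 / ε ^ 2)
  set n : ℕ := n0 + 1 with hn
  have hnpos : (0 : ℝ) < n := by rw [hn]; positivity
  have hn1 : 12 * B' ^ 2 / n ≤ ε ^ 2 / 2 := by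
    rw [div_le_iff₀ hnpos]
    have : 24 * B' ^ 2 / ε ^ 2 < n := hn0.trans (by rw [hn]; push_cast; linarith)
    rw [div_lt_iff₀ (by positivity)] at this
    linarith
  set D : ℝ := 4 * n * (B' ^ 2 + B') + 1 with hD
  have hD0 : 0 < D := by positivity
  -- s = sqrt d with s ≤ ε and s * D ≤ ε^2/2
  set s : ℝ := min ε (ε ^ 2 / (2 * D)) with hs
  have hs0 : 0 < s := lt_min hε (by positivity)
  have hsε : s ≤ ε := min_le_left _ _
  have hsD : s * D ≤ ε ^ 2 / 2 := by
    have : s ≤ ε ^ 2 / (2 * D) := min_le_right _ _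
    calc s * D ≤ ε ^ 2 / (2 * D) * D := mul_le_mul_of_nonneg_right this hD0.le
      _ = ε ^ 2 / 2 := by field_simp
  set d : ℝ := s ^ 2 with hd
  have hd0 : 0 < d := by positivity
  have hsd : Real.sqrt d = s := by rw [hd]; exact Real.sqrt_sq hs0.le
  set K : ℝ := 2 * (m + 1) * (1 + (1 + 2 * r * B' ^ 2) / d) ^ n / d with hK
  have hK0 : 0 < K := by positivity
  refine ⟨Real.sqrt (ε / K), Real.sqrt_pos.2 (by positivity), ?_⟩
  intro A _ _ _ b j hb hj
  have hb' : ∀ i, ‖b i‖ ≤ B' := fun i => (hb i).trans (le_max_left _ _)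
  set J : A := ∑ i, (j i * star (j i) + star (j i) * j i) with hJdef
  have hJ : 0 ≤ J := Finset.sum_nonneg fun i _ =>
    add_nonneg (mul_star_self_nonneg _) (star_mul_self_nonneg _)
  set E : ℕ → A := fun k => ee d (hq d J b k) with hE
  have hh0 : ∀ k, 0 ≤ hq d J b k := fun k => hq_nonneg hd0 hJ k
  have hE0 : ∀ k, 0 ≤ E k := fun k => ee_nonneg hd0 (hh0 k)
  have hE1 : ∀ k, E k ≤ 1 := fun k => ee_le_one (hh0 k)
  have hEsa : ∀ k, star (E k) = E k := fun k => ee_sa.star_eq
  have hEn : ∀ k, ‖E k‖ ≤ 1 := fun k =>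
    (CStarAlgebra.norm_le_one_iff_of_nonneg _ (hE0 k)).2 (hE1 k)
  have hun : ∀ k, ‖1 - E k‖ ≤ 1 := fun k =>
    (CStarAlgebra.norm_le_one_iff_of_nonneg _ (sub_nonneg.2 (hE1 k))).2
      (sub_le_self _ (hE0 k))
  have hj1 : ∀ i k, ‖(1 - E k) * j i‖ ≤ s := by
    intro i k
    rw [← hsd]
    apply norm_unit_le hd0 (hh0 k)
    refine le_trans ?_ (J_le hd0 hJ k)
    refine le_trans ?_ (Finset.single_le_sum (f := fun i => j i * star (j i) + star (j i) * j i)
      (fun i _ => add_nonneg (mul_star_self_nonneg _) (star_mul_self_nonneg _))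
      (Finset.mem_univ i))
    exact le_add_of_nonneg_right (star_mul_self_nonneg _)
  have hj2 : ∀ i k, ‖(1 - E k) * star (j i)‖ ≤ s := by
    intro i k
    rw [← hsd]
    apply norm_unit_le hd0 (hh0 k)
    refine le_trans ?_ (J_le hd0 hJ k)
    refine le_trans ?_ (Finset.single_le_sum (f := fun i => j i * star (j i) + star (j i) * j i)
      (fun i _ => add_nonneg (mul_star_self_nonneg _) (star_mul_self_nonneg _))
      (Finset.mem_univ i))
    rw [star_star]
    exact le_add_of_nonneg_left (mul_star_self_nonneg _)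
  have hninv : (0 : ℝ) < (n : ℝ)⁻¹ := inv_pos.2 hnpos
  set e : A := ((n : ℝ)⁻¹) • ∑ k ∈ Finset.range n, E k with he
  have hcard : ((n : ℝ)⁻¹) • ∑ k ∈ Finset.range n, (1 : A) = 1 := by
    rw [Finset.sum_const, Finset.card_range, ← Nat.cast_smul_eq_nsmul ℝ, smul_smul,
      inv_mul_cancel₀ hnpos.ne', one_smul]
  have he0 : 0 ≤ e := smul_nonneg hninv.le (Finset.sum_nonneg fun k _ => hE0 k)
  have he1 : e ≤ 1 := by
    rw [← hcard, he]
    exact smul_le_smul_of_nonneg_left (Finset.sum_le_sum fun k _ => hE1 k) hninv.le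
  have hesub : 1 - e = ((n : ℝ)⁻¹) • ∑ k ∈ Finset.range n, (1 - E k) := by
    rw [Finset.sum_sub_distrib, smul_sub, hcard]
  have havg : ∀ (f : ℕ → A) (c : ℝ), (∀ k, ‖f k‖ ≤ c) →
      ‖((n : ℝ)⁻¹) • ∑ k ∈ Finset.range n, f k‖ ≤ c := by
    intro f c hf
    rw [norm_smul, Real.norm_of_nonneg hninv.le]
    have : ‖∑ k ∈ Finset.range n, f k‖ ≤ n * c := by
      refine (norm_sum_le _ _).trans ((Finset.sum_le_sum fun k _ => hf k).trans (le_of_eq ?_))
      rw [Finset.sum_const, Finset.card_range, nsmul_eq_mul]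
    calc (n : ℝ)⁻¹ * ‖∑ k ∈ Finset.range n, f k‖ ≤ (n : ℝ)⁻¹ * (n * c) :=
          mul_le_mul_of_nonneg_left this hninv.le
      _ = c := by field_simp
  have hesa : star (1 - e) = 1 - e := by
    rw [star_sub, star_one, (IsSelfAdjoint.of_nonneg he0).star_eq]
  have hunit : ∀ y : A, (∀ k, ‖(1 - E k) * y‖ ≤ s) → ‖(1 - e) * y‖ ≤ ε := by
    intro y hy
    have : (1 - e) * y = ((n : ℝ)⁻¹) • ∑ k ∈ Finset.range n, ((1 - E k) * y) := by
      rw [hesub, smul_mul_assoc, Finset.sum_mul]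
    rw [this]
    exact (havg _ _ hy).trans hsε
  refine ⟨e, he0, he1, ?_, ?_, ?_⟩
  · intro T hT
    have hTB' := hTB A T hT
    obtain ⟨_, hsq, _, _, _, hstar, _, _, _, _, _, hmono, hpos, _, _, _⟩ := hTB'
    have hadd : ∀ x y : A, re T (x + y) = re T x + re T y := by
      intro x y; simp [re, map_add]
    have hsum : ∀ {m : ℕ} (f : Fin m → A), re T (∑ i, f i) = ∑ i, re T (f i) := by
      intro m f; simp [re, map_sum]
    have hsumr : ∀ {m : ℕ} (f : ℕ → A), re T (∑ i ∈ Finset.range m, f i) =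
        ∑ i ∈ Finset.range m, re T (f i) := by
      intro m f; simp [re, map_sum]
    have hsm : ∀ (c : ℝ) (x : A), re T (c • x) = c * re T x := by
      intro c x
      have : c • x = (c : ℂ) • x := by simp
      rw [this]
      simp [re]
    have hJT : re T J ≤ 2 * (m + 1) * (ε / K) := by
      rw [hJdef, hsum]
      have : ∀ i : Fin m, re T (j i * star (j i) + star (j i) * j i) ≤ 2 * (ε / K) := by
        intro i
        have h1 : n2 T (j i) ^ 2 ≤ ε / K := by
          have h2 : 0 ≤ n2 T (j i) := Real.sqrt_nonneg _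
          calc n2 T (j i) ^ 2 ≤ (Real.sqrt (ε / K)) ^ 2 := pow_le_pow_left₀ h2 (hj T hT i) 2
            _ = ε / K := Real.sq_sqrt (by positivity)
        have h3 : re T (star (j i) * j i) = n2 T (j i) ^ 2 := (hsq (j i)).symm
        have h4 : re T (j i * star (j i)) = n2 T (j i) ^ 2 := by
          have := hsq (star (j i))
          rw [hstar, star_star] at this
          exact this.symm
        rw [hadd, h3, h4]; linarith
      refine (Finset.sum_le_sum fun i _ => this i).trans ?_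
      rw [Finset.sum_const, Finset.card_univ, Fintype.card_fin, nsmul_eq_mul]
      have : 0 ≤ ε / K := by positivity
      nlinarith
    have hEk : ∀ k ∈ Finset.range n, re T (E k) ≤ ε := by
      intro k hk
      have h1 : re T (E k) ≤ d⁻¹ * re T (hq d J b k) := by
        rw [← hsm]; exact hmono _ _ (ee_le hd0 (hh0 k))
      have h2 := trace_hq hTB T hT hd0 hJ hb' k
      have h3 : (1 + (1 + 2 * r * B' ^ 2) / d) ^ k ≤ (1 + (1 + 2 * r * B' ^ 2) / d) ^ n := by
        apply pow_le_pow_right₀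
        · have : 0 ≤ (1 + 2 * r * B' ^ 2) / d := by positivity
          linarith
        · exact (Finset.mem_range.1 hk).le
      have hJ0 : 0 ≤ re T J := (hpos J hJ).1
      have h4 : re T (hq d J b k) ≤ (2 * (m + 1) * (ε / K)) *
          (1 + (1 + 2 * r * B' ^ 2) / d) ^ n :=
        h2.trans (mul_le_mul hJT h3 (by positivity) (by positivity))
      calc re T (E k) ≤ d⁻¹ * ((2 * (m + 1) * (ε / K)) *
          (1 + (1 + 2 * r * B' ^ 2) / d) ^ n) :=
            h1.trans (mul_le_mul_of_nonneg_left h4 (inv_pos.2 hd0).le)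
        _ = (ε / K) * K := by rw [hK]; ring
        _ = ε := by field_simp
    have : re T e = (n : ℝ)⁻¹ * ∑ k ∈ Finset.range n, re T (E k) := by
      rw [he, hsm, hsumr]
    rw [this]
    calc (n : ℝ)⁻¹ * ∑ k ∈ Finset.range n, re T (E k) ≤
        (n : ℝ)⁻¹ * ∑ k ∈ Finset.range n, ε :=
          mul_le_mul_of_nonneg_left (Finset.sum_le_sum hEk) hninv.le
      _ = ε := by
        rw [Finset.sum_const, Finset.card_range, nsmul_eq_mul]
        field_simp
  · intro i
    refine ⟨hunit _ (hj1 i), ?_⟩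
    have : ‖j i * (1 - e)‖ = ‖(1 - e) * star (j i)‖ := by
      rw [← norm_star, star_mul, hesa]
    rw [this]
    exact hunit _ (hj2 i)
  · intro k
    have h1 : ∀ l, ‖(1 - E (l + 1)) * E l‖ ≤ s := fun l => by
      rw [← hsd]; exact uE hd0 hJ l
    have h2 : ∀ l, ‖(1 - E (l + 1)) * (star (b k) * E l)‖ ≤ s := fun l => by
      rw [← hsd]; exact ubsE hd0 hJ l k
    have h3 : ∀ l, ‖(1 - E (l + 1)) * (b k * E l)‖ ≤ s := fun l => by
      rw [← hsd]; exact ubE hd0 hJ l k
    have hS := comm_sum hEsa hEn hun h1 (hb' k) h2 h3 n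
    have e1 : e * b k - b k * e = ((n : ℝ)⁻¹) • ∑ l ∈ Finset.range n, (E l * b k - b k * E l) := by
      rw [he, smul_mul_assoc, mul_smul_comm, Finset.sum_mul, Finset.mul_sum, ← smul_sub,
        ← Finset.sum_sub_distrib]
    have e2 : ‖e * b k - b k * e‖ ^ 2 ≤ ε ^ 2 := by
      rw [e1, norm_smul, Real.norm_of_nonneg hninv.le, mul_pow]
      calc ((n : ℝ)⁻¹) ^ 2 * ‖∑ l ∈ Finset.range n, (E l * b k - b k * E l)‖ ^ 2 ≤
          ((n : ℝ)⁻¹) ^ 2 * ((n : ℝ) ^ 2 * (4 * s * n * (B' ^ 2 + B')) + 12 * n * B' ^ 2) :=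
            mul_le_mul_of_nonneg_left hS (by positivity)
        _ = s * (4 * n * (B' ^ 2 + B')) + 12 * B' ^ 2 / n := by field_simp
        _ ≤ s * D + 12 * B' ^ 2 / n := by
            have : s * (4 * n * (B' ^ 2 + B')) ≤ s * D := by
              apply mul_le_mul_of_nonneg_left _ hs0.le
              rw [hD]; linarith
            linarith
        _ ≤ ε ^ 2 / 2 + ε ^ 2 / 2 := add_le_add hsD hn1
        _ = ε ^ 2 := by ring
    exact abs_le_of_sq_le_sq' e2 hε.le |>.2

end final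

end Pool.Agent.H703R4.QC
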